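import Pool.Agent.W360.MQ.Stm

/-! Project MQ: assembly. -/

set_option autoImplicit false

namespace Pool.Agent.W101.MQ

open Pool.Agent.W360.MQ

open scoped Matrix.Norms.L2Operator in
theorem main (h1 : S_OPN) (h2 : S_ROC) (h3 : S_QA) (h4 : S_CONT) (h5 : S_OM) : S_MQ := by
  intro α β W hW hR
  have h : W = fun A => wf α β (cab A) := by
    funext A
    rw [hW A, (h1 A).1, (h1 A).2]
    rfl
  rw [h] at hR ⊢
  have hrc := h2 α β hR
  exact h5 _ (h4 α β hrc) (h3 α β hrc)

end Pool.Agent.W101.MQ
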